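import Pool.Agent.H65.CRG.TL

/-!
Row TR: the auxiliary function is a combination of derivatives.
-/

set_option autoImplicit false

open Complex Set MeasureTheory Pool.Agent.H65.CRZ Pool.Agent.H65.CRG

namespace Pool.Agent.H80.CRG

/-- the right half plane -/
def UU : Set ℂ := {s : ℂ | 0 < s.re}

lemma isOpen_UU : IsOpen UU := isOpen_lt continuous_const Complex.continuous_re

/-- the constant function one -/
def one1 : ℂ → ℂ := fun _ => 1

lemma one1_diff (U : Set ℂ) : DifferentiableOn ℂ one1 U := differentiableOn_const _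

lemma TK_diff {U : Set ℂ} (hU : IsOpen U) {h Z : ℂ → ℂ} (hh : DifferentiableOn ℂ h U)
    (hZ : DifferentiableOn ℂ Z U) (k : ℕ) : DifferentiableOn ℂ (TK h Z k) U := by
  induction k with
  | zero => exact hZ
  | succ k ih =>
    have h1 : TK h Z (k + 1) = fun s => deriv (TK h Z k) s + h s * TK h Z k s := rfl
    rw [h1]
    exact (ih.deriv hU).add (hh.mul ih)

lemma TK_leibniz {U : Set ℂ} (hU : IsOpen U) {h Z : ℂ → ℂ} (hh : DifferentiableOn ℂ h U)
    (hZ : Differentiable ℂ Z) (k : ℕ) : ∀ s ∈ U, TK h Z k s =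
      ∑ ij ∈ Finset.HasAntidiagonal.antidiagonal k, (k.choose ij.1 : ℂ) *
        (iteratedDeriv ij.1 Z s * TK h one1 ij.2 s) := by
  induction k with
  | zero =>
    intro s _
    simp [TK_zero, one1]
  | succ k ih =>
    intro s hs
    have hd : HasDerivAt (fun z => ∑ ij ∈ Finset.HasAntidiagonal.antidiagonal k, (k.choose ij.1 : ℂ) *
        (iteratedDeriv ij.1 Z z * TK h one1 ij.2 z))
        (∑ ij ∈ Finset.HasAntidiagonal.antidiagonal k, (k.choose ij.1 : ℂ) *
          (iteratedDeriv (ij.1 + 1) Z s * TK h one1 ij.2 s +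
            iteratedDeriv ij.1 Z s * deriv (TK h one1 ij.2) s)) s := by
      refine HasDerivAt.fun_sum fun ij _ => ?_
      refine HasDerivAt.const_mul _ ?_
      have h1 : HasDerivAt (iteratedDeriv ij.1 Z) (iteratedDeriv (ij.1 + 1) Z s) s := by
        rw [iteratedDeriv_succ]
        have h2 : Differentiable ℂ (iteratedDeriv ij.1 Z) :=
          (hZ.contDiff (n := ⊤)).differentiable_iteratedDeriv ij.1 (WithTop.coe_lt_top _)
        exact (h2 s).hasDerivAt
      have h3 : HasDerivAt (TK h one1 ij.2) (deriv (TK h one1 ij.2) s) s :=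
        ((TK_diff hU hh (one1_diff U) ij.2).differentiableAt (hU.mem_nhds hs)).hasDerivAt
      exact h1.mul h3
    have he : deriv (TK h Z k) s = ∑ ij ∈ Finset.HasAntidiagonal.antidiagonal k, (k.choose ij.1 : ℂ) *
          (iteratedDeriv (ij.1 + 1) Z s * TK h one1 ij.2 s +
            iteratedDeriv ij.1 Z s * deriv (TK h one1 ij.2) s) := by
      rw [← hd.deriv]
      apply Filter.EventuallyEq.deriv_eq
      filter_upwards [hU.mem_nhds hs] with z hz
      exact ih z hz
    rw [TK_succ, he, ih s hs,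
      Finset.sum_antidiagonal_choose_succ_mul (fun i j => iteratedDeriv i Z s * TK h one1 j s) k,
      Finset.mul_sum, ← Finset.sum_add_distrib, ← Finset.sum_add_distrib]
    refine Finset.sum_congr rfl fun ij hij => ?_
    have h4 : k.choose ij.2 = k.choose ij.1 :=
      Nat.choose_symm_of_eq_add ((Finset.HasAntidiagonal.mem_antidiagonal.1 hij).symm.trans (add_comm _ _))
    rw [h4, TK_succ]
    ring

lemma TK_shift {U : Set ℂ} (hU : IsOpen U) {g : ℂ → ℂ} (hg : DifferentiableOn ℂ g U) (a : ℂ)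
    (k : ℕ) : ∀ s ∈ U, TK (fun z => a + g z) one1 k s =
      ∑ ij ∈ Finset.HasAntidiagonal.antidiagonal k, (k.choose ij.1 : ℂ) * (a ^ ij.1 * TK g one1 ij.2 s) := by
  induction k with
  | zero =>
    intro s _
    simp [TK_zero, one1]
  | succ k ih =>
    intro s hs
    have hd : HasDerivAt (fun z => ∑ ij ∈ Finset.HasAntidiagonal.antidiagonal k, (k.choose ij.1 : ℂ) *
        (a ^ ij.1 * TK g one1 ij.2 z))
        (∑ ij ∈ Finset.HasAntidiagonal.antidiagonal k, (k.choose ij.1 : ℂ) *
          (a ^ ij.1 * deriv (TK g one1 ij.2) s)) s := by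
      refine HasDerivAt.fun_sum fun ij _ => ?_
      refine HasDerivAt.const_mul _ ?_
      refine HasDerivAt.const_mul _ ?_
      exact ((TK_diff hU hg (one1_diff U) ij.2).differentiableAt (hU.mem_nhds hs)).hasDerivAt
    have he : deriv (TK (fun z => a + g z) one1 k) s =
        ∑ ij ∈ Finset.HasAntidiagonal.antidiagonal k, (k.choose ij.1 : ℂ) *
          (a ^ ij.1 * deriv (TK g one1 ij.2) s) := by
      rw [← hd.deriv]
      apply Filter.EventuallyEq.deriv_eq
      filter_upwards [hU.mem_nhds hs] with z hz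
      exact ih z hz
    rw [TK_succ, he, ih s hs,
      Finset.sum_antidiagonal_choose_succ_mul (fun i j => a ^ i * TK g one1 j s) k,
      Finset.mul_sum, ← Finset.sum_add_distrib, ← Finset.sum_add_distrib]
    refine Finset.sum_congr rfl fun ij hij => ?_
    have h4 : k.choose ij.2 = k.choose ij.1 :=
      Nat.choose_symm_of_eq_add ((Finset.HasAntidiagonal.mem_antidiagonal.1 hij).symm.trans (add_comm _ _))
    rw [h4, TK_succ]
    ring

/-- the part of `el` which does not depend on `A` -/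
noncomputable def gam (n : ℕ) (s : ℂ) : ℂ := n * ld Gamma s

lemma Gamma_diff : DifferentiableOn ℂ Gamma UU := by
  intro s hs
  refine (Complex.differentiableAt_Gamma s fun m h => ?_).differentiableWithinAt
  have h1 := congrArg Complex.re h
  have h2 : (0 : ℝ) < s.re := hs
  simp at h1
  have h3 : (0 : ℝ) ≤ m := Nat.cast_nonneg m
  linarith

lemma gam_diff (n : ℕ) : DifferentiableOn ℂ (gam n) UU := by
  have h1 : DifferentiableOn ℂ (ld Gamma) UU := by
    have h2 := Gamma_diff.deriv isOpen_UU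
    exact h2.div Gamma_diff fun s hs => Complex.Gamma_ne_zero_of_re_pos hs
  exact h1.const_mul _

lemma el_eq (n : ℕ) (A : ℝ) : el n A = fun s => (Real.log A : ℂ) + gam n s := rfl

lemma el_diff (n : ℕ) (A : ℝ) : DifferentiableOn ℂ (el n A) UU := by
  rw [el_eq]
  exact (gam_diff n).const_add _

/-- the bound for the normalised coefficients -/
lemma TK_bound (n p : ℕ) (b T : ℝ) : ∃ B : ℝ, 0 ≤ B ∧ ∀ (A : ℝ) (s : ℂ), 2 ≤ A → 1 / 8 ≤ s.re →
    s.re ≤ b → |s.im| ≤ T →
    ‖TK (el n A) one1 p s / ((2 * Real.log A : ℝ) : ℂ) ^ p - (1 / 2 : ℂ) ^ p‖ ≤ B / Real.log A := by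
  have hK : IsCompact {s : ℂ | 1 / 8 ≤ s.re ∧ s.re ≤ b ∧ |s.im| ≤ T} := by
    have h1 : {s : ℂ | 1 / 8 ≤ s.re ∧ s.re ≤ b ∧ |s.im| ≤ T} =
        Icc (1 / 8 : ℝ) b ×ℂ Icc (-T) T := by
      ext s
      simp only [mem_ofPred_eq, mem_reProdIm, mem_Icc, abs_le]
      tauto
    rw [h1]
    exact isCompact_Icc.reProdIm isCompact_Icc
  have hM : ∀ t : ℕ, ∃ M : ℝ, 0 ≤ M ∧ ∀ s : ℂ, 1 / 8 ≤ s.re → s.re ≤ b → |s.im| ≤ T →
      ‖TK (gam n) one1 t s‖ ≤ M := by
    intro t
    have h2 : ContinuousOn (TK (gam n) one1 t) {s : ℂ | 1 / 8 ≤ s.re ∧ s.re ≤ b ∧ |s.im| ≤ T} := by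
      refine (TK_diff isOpen_UU (gam_diff n) (one1_diff UU) t).continuousOn.mono ?_
      intro s hs
      have h3 : (1 / 8 : ℝ) ≤ s.re := hs.1
      show (0 : ℝ) < s.re
      linarith
    obtain ⟨M, hM⟩ := hK.exists_bound_of_continuousOn h2
    exact ⟨max M 0, le_max_right _ _, fun s h3 h4 h5 => (hM s ⟨h3, h4, h5⟩).trans (le_max_left _ _)⟩
  choose M hM0 hM using hM
  refine ⟨∑ ij ∈ Finset.HasAntidiagonal.antidiagonal p, (p.choose ij.1 : ℝ) * (2 ^ ij.2 * M ij.2),
    Finset.sum_nonneg fun ij _ => by have := hM0 ij.2; positivity, ?_⟩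
  intro A s hA h1 h2 h3
  have hs : s ∈ UU := by
    show (0 : ℝ) < s.re
    linarith
  have ha : 1 / 2 < Real.log A := by
    have h4 : Real.log 2 ≤ Real.log A := Real.log_le_log (by norm_num) hA
    have h5 := Real.log_two_gt_d9
    linarith
  have ha0 : 0 < Real.log A := by linarith
  obtain ⟨a, haa⟩ : ∃ a, a = Real.log A := ⟨_, rfl⟩
  rw [← haa] at ha ha0 ⊢
  have haC : (a : ℂ) ≠ 0 := by exact_mod_cast ha0.ne'
  have h6 : TK (el n A) one1 p s = ∑ ij ∈ Finset.HasAntidiagonal.antidiagonal p,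
      (p.choose ij.1 : ℂ) * ((a : ℂ) ^ ij.1 * TK (gam n) one1 ij.2 s) := by
    rw [el_eq, ← haa]
    exact TK_shift isOpen_UU (gam_diff n) (a : ℂ) p s hs
  -- each term
  have h7 : TK (el n A) one1 p s / ((2 * a : ℝ) : ℂ) ^ p - (1 / 2 : ℂ) ^ p =
      ∑ ij ∈ Finset.HasAntidiagonal.antidiagonal p, (if ij.2 = 0 then 0 else
        (1 / 2 : ℂ) ^ p * ((p.choose ij.1 : ℂ) * (TK (gam n) one1 ij.2 s / (a : ℂ) ^ ij.2))) := by
    have h8 : (1 / 2 : ℂ) ^ p = ∑ ij ∈ Finset.HasAntidiagonal.antidiagonal p, (if ij.2 = 0 then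
        (1 / 2 : ℂ) ^ p else 0) := by
      rw [Finset.sum_eq_single (p, 0)]
      · simp
      · rintro ⟨i, j⟩ hij hne
        rw [if_neg]
        intro hj
        apply hne
        have := Finset.HasAntidiagonal.mem_antidiagonal.1 hij
        simp only at hj this
        subst hj
        simp at this
        rw [this]
      · intro h
        exact absurd (Finset.HasAntidiagonal.mem_antidiagonal.2 (add_zero p)) h
    rw [h6, Finset.sum_div]
    refine (congrArg (fun x : ℂ => (∑ i ∈ Finset.HasAntidiagonal.antidiagonal p,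
      (p.choose i.1 : ℂ) * ((a : ℂ) ^ i.1 * TK (gam n) one1 i.2 s) / ((2 * a : ℝ) : ℂ) ^ p) - x)
      h8).trans ?_
    rw [← Finset.sum_sub_distrib]
    refine Finset.sum_congr rfl fun ij hij => ?_
    obtain ⟨i, j⟩ := ij
    have hij' : i + j = p := Finset.HasAntidiagonal.mem_antidiagonal.1 hij
    simp only
    have h9 : ((2 * a : ℝ) : ℂ) ^ p = 2 ^ p * ((a : ℂ) ^ i * (a : ℂ) ^ j) := by
      rw [← pow_add, hij']
      push_cast
      rw [mul_pow]
    have h10 : (2 : ℂ) ^ p ≠ 0 := pow_ne_zero _ two_ne_zero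
    have h11 : (a : ℂ) ^ i ≠ 0 := pow_ne_zero _ haC
    have h12 : (a : ℂ) ^ j ≠ 0 := pow_ne_zero _ haC
    have h13 : (1 / 2 : ℂ) ^ p = 1 / 2 ^ p := by rw [one_div, inv_pow, one_div]
    rw [h9, h13]
    by_cases hj : j = 0
    · rw [if_pos hj, if_pos hj]
      subst hj
      have h14 : i = p := by simpa using hij'
      subst h14
      rw [Nat.choose_self, TK_zero]
      simp only [one1, pow_zero, Nat.cast_one, mul_one, one_mul]
      field_simp
      simp
    · rw [if_neg hj, if_neg hj, sub_zero]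
      field_simp
  rw [h7, Finset.sum_div]
  refine (norm_sum_le _ _).trans (Finset.sum_le_sum fun ij _ => ?_)
  obtain ⟨i, j⟩ := ij
  simp only
  have hMj := hM0 j
  split_ifs with hj
  · rw [norm_zero]
    positivity
  · rw [norm_mul, norm_mul, norm_div, norm_pow, norm_pow, Complex.norm_natCast, Complex.norm_real,
      Real.norm_of_nonneg ha0.le]
    have h15 : ‖(1 / 2 : ℂ)‖ ^ p ≤ 1 := by
      apply pow_le_one₀ (norm_nonneg _)
      norm_num
    have h16 : ‖TK (gam n) one1 j s‖ / a ^ j ≤ 2 ^ j * M j / a := by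
      obtain ⟨j', rfl⟩ : ∃ j', j = j' + 1 := ⟨j - 1, by omega⟩
      have h17 : (1 : ℝ) ≤ 2 ^ (j' + 1) * a ^ j' := by
        have h18 : (1 : ℝ) ≤ (2 * a) ^ j' := one_le_pow₀ (by linarith)
        have h19 : (2 : ℝ) ^ (j' + 1) * a ^ j' = 2 * (2 * a) ^ j' := by
          rw [mul_pow, pow_succ]
          ring
        rw [h19]
        linarith
      rw [div_le_div_iff₀ (by positivity) ha0, pow_succ a]
      calc ‖TK (gam n) one1 (j' + 1) s‖ * a ≤ M (j' + 1) * a :=
            mul_le_mul_of_nonneg_right (hM _ s h1 h2 h3) ha0.le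
        _ = 1 * (M (j' + 1) * a) := (one_mul _).symm
        _ ≤ (2 ^ (j' + 1) * a ^ j') * (M (j' + 1) * a) :=
            mul_le_mul_of_nonneg_right h17 (by positivity)
        _ = 2 ^ (j' + 1) * M (j' + 1) * (a ^ j' * a) := by ring
    calc ‖(1 / 2 : ℂ)‖ ^ p * ((p.choose i : ℝ) * (‖TK (gam n) one1 j s‖ / a ^ j))
        ≤ 1 * ((p.choose i : ℝ) * (2 ^ j * M j / a)) :=
          mul_le_mul h15 (mul_le_mul_of_nonneg_left h16 (Nat.cast_nonneg _)) (by positivity)
            zero_le_one
      _ = (p.choose i : ℝ) * (2 ^ j * M j) / a := by ring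

/-- the coefficients -/
noncomputable def cc (n N : ℕ) (m : ℕ → ℝ) (A : ℝ) (i : ℕ) (s : ℂ) : ℂ :=
  ((if i = 0 then 1 else 0) + ∑ j ∈ Finset.range N, (m j : ℂ) * (((2 * j + 1).choose i : ℂ) *
    (((2 * Real.log A : ℝ) : ℂ) ^ i / ((2 * Real.log A : ℝ) : ℂ) ^ (2 * j + 1) *
      TK (el n A) one1 (2 * j + 1 - i) s))) / ((1 + pm N m (1 / 2) : ℝ) : ℂ)

theorem pf_TR : T_TR := by
  intro n N m hC0
  obtain ⟨C0, hC⟩ : ∃ C0 : ℝ, C0 = 1 + pm N m (1 / 2) := ⟨_, rfl⟩
  have hC0' : (C0 : ℂ) ≠ 0 := by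
    rw [hC]
    exact_mod_cast hC0.ne'
  refine ⟨cc n N m, ?_, ?_, ?_⟩
  · intro A i s hs
    have h1 : DifferentiableOn ℂ (cc n N m A i) UU := by
      unfold cc
      refine DifferentiableOn.div_const ?_ _
      refine (differentiableOn_const _).add ?_
      refine DifferentiableOn.fun_sum fun j _ => ?_
      exact (((TK_diff isOpen_UU (el_diff n A) (one1_diff UU) _).const_mul _).const_mul _).const_mul _
    exact h1.differentiableAt (isOpen_UU.mem_nhds hs)
  · intro A Z s hA hZ hs
    have h1 : ∀ k : ℕ, DifferentiableOn ℂ (TK (el n A) Z k) UU := fun k =>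
      TK_diff isOpen_UU (el_diff n A) hZ.differentiableOn k
    refine ⟨fun k => (h1 k).differentiableAt (isOpen_UU.mem_nhds hs), ?_, ?_⟩
    · have h2 : DifferentiableOn ℂ (VQ n N m A Z) UU := by
        unfold VQ
        refine DifferentiableOn.div_const ?_ _
        refine hZ.differentiableOn.add ?_
        refine DifferentiableOn.fun_sum fun j _ => ?_
        exact (h1 _).const_mul _
      exact h2.differentiableAt (isOpen_UU.mem_nhds hs)
    · have hL0 : (2 * Real.log A : ℝ) ≠ 0 := by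
        have := Real.log_pos hA
        positivity
      have hL : ((2 * Real.log A : ℝ) : ℂ) ≠ 0 := by exact_mod_cast hL0
      have hTK : ∀ j ∈ Finset.range N, TK (el n A) Z (2 * j + 1) s =
          ∑ i ∈ Finset.range (2 * N + 1), ((2 * j + 1).choose i : ℂ) *
            (iteratedDeriv i Z s * TK (el n A) one1 (2 * j + 1 - i) s) := by
        intro j hj
        have hj' := Finset.mem_range.1 hj
        rw [TK_leibniz isOpen_UU (el_diff n A) hZ (2 * j + 1) s hs,
          Finset.Nat.sum_antidiagonal_eq_sum_range_succ_mk]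
        refine Finset.sum_subset (fun i hi => ?_) fun i _ hi => ?_
        · rw [Finset.mem_range] at hi ⊢
          omega
        · rw [Finset.mem_range, not_lt] at hi
          rw [Nat.choose_eq_zero_of_lt (by omega)]
          simp
      have hZ0 : Z s = ∑ i ∈ Finset.range (2 * N + 1),
          (if i = 0 then 1 else 0) / ((2 * Real.log A : ℝ) : ℂ) ^ i * iteratedDeriv i Z s := by
        rw [Finset.sum_eq_single 0]
        · simp [iteratedDeriv_zero]
        · intro i _ hi
          rw [if_neg hi]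
          simp
        · intro h
          exact absurd (Finset.mem_range.2 (by omega)) h
      have hterm : ∀ i : ℕ, cc n N m A i s / ((2 * Real.log A : ℝ) : ℂ) ^ i * iteratedDeriv i Z s =
          ((if i = 0 then 1 else 0) / ((2 * Real.log A : ℝ) : ℂ) ^ i * iteratedDeriv i Z s +
            ∑ j ∈ Finset.range N, ((m j / (2 * Real.log A) ^ (2 * j + 1) : ℝ) : ℂ) *
              (((2 * j + 1).choose i : ℂ) *
                (iteratedDeriv i Z s * TK (el n A) one1 (2 * j + 1 - i) s))) / (C0 : ℂ) := by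
        intro i
        have hLi : ((2 * Real.log A : ℝ) : ℂ) ^ i ≠ 0 := pow_ne_zero _ hL
        have h5 : ∑ j ∈ Finset.range N, ((m j / (2 * Real.log A) ^ (2 * j + 1) : ℝ) : ℂ) *
              (((2 * j + 1).choose i : ℂ) *
                (iteratedDeriv i Z s * TK (el n A) one1 (2 * j + 1 - i) s)) =
            (∑ j ∈ Finset.range N, (m j : ℂ) * (((2 * j + 1).choose i : ℂ) *
              (((2 * Real.log A : ℝ) : ℂ) ^ i / ((2 * Real.log A : ℝ) : ℂ) ^ (2 * j + 1) *
              TK (el n A) one1 (2 * j + 1 - i) s))) / ((2 * Real.log A : ℝ) : ℂ) ^ i *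
              iteratedDeriv i Z s := by
          rw [Finset.sum_div, Finset.sum_mul]
          refine Finset.sum_congr rfl fun j _ => ?_
          have hLj : ((2 * Real.log A : ℝ) : ℂ) ^ (2 * j + 1) ≠ 0 := pow_ne_zero _ hL
          have h6 : ((m j / (2 * Real.log A) ^ (2 * j + 1) : ℝ) : ℂ) =
              (m j : ℂ) / ((2 * Real.log A : ℝ) : ℂ) ^ (2 * j + 1) := by
            rw [Complex.ofReal_div, Complex.ofReal_pow]
          rw [h6]
          field_simp
        rw [h5]
        unfold cc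
        rw [← hC]
        ring
      rw [Finset.sum_congr rfl (fun i _ => hterm i), ← Finset.sum_div, Finset.sum_add_distrib,
        ← hZ0, Finset.sum_comm]
      unfold VQ
      rw [← hC]
      have h7 : ∀ x y : ℂ, x = y → (Z s + x) / (C0 : ℂ) = (Z s + y) / (C0 : ℂ) := by
        intro x y h
        rw [h]
      apply h7
      refine Finset.sum_congr rfl fun j hj => ?_
      rw [hTK j hj, Finset.mul_sum]
  · intro b T
    choose Bp hBp0 hBp using fun p => TK_bound n p b T
    have hCpos : 0 < C0 := by rw [hC]; exact hC0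
    have hS0 : 0 ≤ ∑ p ∈ Finset.range (2 * N + 1), Bp p := Finset.sum_nonneg fun p _ => hBp0 p
    have hW0 : 0 ≤ ∑ j ∈ Finset.range N, |m j| * (2 ^ (2 * j + 1) *
        ∑ p ∈ Finset.range (2 * N + 1), Bp p) :=
      Finset.sum_nonneg fun j _ => by positivity
    refine ⟨(∑ j ∈ Finset.range N, |m j| * (2 ^ (2 * j + 1) *
        ∑ p ∈ Finset.range (2 * N + 1), Bp p)) / C0 + 1, by positivity, ?_⟩
    intro A i s hA h1 h2 h3
    have ha0 : 0 < Real.log A := Real.log_pos (by linarith)
    have hL : ((2 * Real.log A : ℝ) : ℂ) ≠ 0 := by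
      have : (2 * Real.log A : ℝ) ≠ 0 := by positivity
      exact_mod_cast this
    have h4 : cc n N m A i s - (qm N m i : ℂ) = (∑ j ∈ Finset.range N, (m j : ℂ) *
        (((2 * j + 1).choose i : ℂ) *
          (((2 * Real.log A : ℝ) : ℂ) ^ i / ((2 * Real.log A : ℝ) : ℂ) ^ (2 * j + 1) *
            TK (el n A) one1 (2 * j + 1 - i) s - (1 / 2 : ℂ) ^ (2 * j + 1 - i)))) / (C0 : ℂ) := by
      have hq : (qm N m i : ℂ) = ((if i = 0 then 1 else 0) + ∑ j ∈ Finset.range N,
          (m j : ℂ) * (((2 * j + 1).choose i : ℂ) * (1 / 2 : ℂ) ^ (2 * j + 1 - i))) /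
          (C0 : ℂ) := by
        unfold qm
        rw [← hC]
        split_ifs <;> push_cast <;> rfl
      rw [hq]
      unfold cc
      rw [← hC, ← sub_div]
      have h5 : ∀ x y z : ℂ, y - z = x → ((if i = 0 then 1 else 0) + y -
          ((if i = 0 then 1 else 0) + z)) / (C0 : ℂ) = x / (C0 : ℂ) := by
        intro x y z h
        rw [← h]
        ring
      apply h5
      rw [← Finset.sum_sub_distrib]
      refine Finset.sum_congr rfl fun j _ => ?_
      ring
    rw [h4, norm_div, Complex.norm_real, Real.norm_of_nonneg hCpos.le]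
    have h6 : ‖∑ j ∈ Finset.range N, (m j : ℂ) *
        (((2 * j + 1).choose i : ℂ) *
          (((2 * Real.log A : ℝ) : ℂ) ^ i / ((2 * Real.log A : ℝ) : ℂ) ^ (2 * j + 1) *
            TK (el n A) one1 (2 * j + 1 - i) s - (1 / 2 : ℂ) ^ (2 * j + 1 - i)))‖ ≤
        (∑ j ∈ Finset.range N, |m j| * (2 ^ (2 * j + 1) *
        ∑ p ∈ Finset.range (2 * N + 1), Bp p)) / Real.log A := by
      rw [Finset.sum_div]
      refine (norm_sum_le _ _).trans (Finset.sum_le_sum fun j hj => ?_)
      have hj' := Finset.mem_range.1 hj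
      rw [norm_mul, norm_mul, Complex.norm_real, Real.norm_eq_abs, Complex.norm_natCast,
        mul_div_assoc]
      refine mul_le_mul_of_nonneg_left ?_ (abs_nonneg _)
      by_cases hi : i ≤ 2 * j + 1
      · have h7 : ((2 * Real.log A : ℝ) : ℂ) ^ i / ((2 * Real.log A : ℝ) : ℂ) ^ (2 * j + 1) *
            TK (el n A) one1 (2 * j + 1 - i) s =
            TK (el n A) one1 (2 * j + 1 - i) s / ((2 * Real.log A : ℝ) : ℂ) ^ (2 * j + 1 - i) := by
          have h8 : ((2 * Real.log A : ℝ) : ℂ) ^ (2 * j + 1) =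
              ((2 * Real.log A : ℝ) : ℂ) ^ i * ((2 * Real.log A : ℝ) : ℂ) ^ (2 * j + 1 - i) := by
            rw [← pow_add]
            congr 1
            omega
          rw [h8]
          have h9 : ((2 * Real.log A : ℝ) : ℂ) ^ i ≠ 0 := pow_ne_zero _ hL
          have h10 : ((2 * Real.log A : ℝ) : ℂ) ^ (2 * j + 1 - i) ≠ 0 := pow_ne_zero _ hL
          field_simp
        rw [h7]
        have h11 := hBp (2 * j + 1 - i) A s hA h1 h2 h3
        have h12 : Bp (2 * j + 1 - i) ≤ ∑ p ∈ Finset.range (2 * N + 1), Bp p :=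
          Finset.single_le_sum (f := Bp) (fun p _ => hBp0 p) (Finset.mem_range.2 (by omega))
        have h13 : ((2 * j + 1).choose i : ℝ) ≤ 2 ^ (2 * j + 1) := by
          have h14 : (2 * j + 1).choose i ≤ 2 ^ (2 * j + 1) := Nat.choose_le_two_pow _ _
          exact_mod_cast h14
        calc ((2 * j + 1).choose i : ℝ) * ‖TK (el n A) one1 (2 * j + 1 - i) s /
              ((2 * Real.log A : ℝ) : ℂ) ^ (2 * j + 1 - i) - (1 / 2 : ℂ) ^ (2 * j + 1 - i)‖
            ≤ 2 ^ (2 * j + 1) * (Bp (2 * j + 1 - i) / Real.log A) :=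
              mul_le_mul h13 h11 (norm_nonneg _) (by positivity)
          _ ≤ 2 ^ (2 * j + 1) * ((∑ p ∈ Finset.range (2 * N + 1), Bp p) / Real.log A) := by
              gcongr
          _ = 2 ^ (2 * j + 1) * (∑ p ∈ Finset.range (2 * N + 1), Bp p) / Real.log A := by ring
      · rw [Nat.choose_eq_zero_of_lt (by omega)]
        simp only [Nat.cast_zero, zero_mul]
        positivity
    calc _ ≤ ((∑ j ∈ Finset.range N, |m j| * (2 ^ (2 * j + 1) *
        ∑ p ∈ Finset.range (2 * N + 1), Bp p)) / Real.log A) / C0 := by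
          exact div_le_div_of_nonneg_right h6 hCpos.le
      _ = ((∑ j ∈ Finset.range N, |m j| * (2 ^ (2 * j + 1) *
        ∑ p ∈ Finset.range (2 * N + 1), Bp p)) / C0) / Real.log A := div_right_comm _ _ _
      _ ≤ _ := by
          apply div_le_div_of_nonneg_right _ ha0.le
          linarith

end Pool.Agent.H80.CRG
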